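import Pool.Agent.Helper41.SK.Fin
import Pool.Agent.Helper41.SK.BMExist

set_option autoImplicit false

/-!
# The nonlinearly skewed Brownian motion equation `X_t = B_t + φ(L^X_t(0))`

The equation has a unique strong solution if and only if `φ` is `1`-Lipschitz on `[0,∞)`.

All definitions are in `Pool/Agent/Helper41/SK/MainDefs.lean`. Processes are indexed by `t : ℝ`
but only times `t ≥ 0` matter; only the values of `φ : ℝ → ℝ` on `[0,∞)` matter.
-/

open MeasureTheory ProbabilityTheory Set Filter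

namespace Pool.Agent.Results.MP_e34d70_pr.FullAnswer

open Pool.Agent.Helper41.SK

/-- Strong existence: on every complete probability space with a standard Brownian motion `B`
there is a solution with respect to the usual augmentation of the filtration of `B`. -/
def StrongExistence (φ : ℝ → ℝ) : Prop :=
  ∀ (Ω : Type) (_ : MeasurableSpace Ω) (P : Measure Ω), IsProbabilityMeasure P → P.IsComplete →
    ∀ B : ℝ → Ω → ℝ, IsBM0 P B → ∃ X : ℝ → Ω → ℝ, IsSol P (augF P B) B φ X

/-- Pathwise uniqueness: any two solutions on a common probability space driven by the same `B`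
(with respect to possibly different filtrations, for which `B` is a Brownian motion) are
indistinguishable. -/
def PathwiseUniqueness (φ : ℝ → ℝ) : Prop :=
  ∀ (Ω : Type) (_ : MeasurableSpace Ω) (P : Measure Ω), IsProbabilityMeasure P →
    ∀ (F G : ℝ → MeasurableSpace Ω) (B X Y : ℝ → Ω → ℝ), IsBM P F B → IsBM P G B →
      IsSol P F B φ X → IsSol P G B φ Y → ∀ᵐ ω ∂P, ∀ t, 0 ≤ t → X t ω = Y t ω

/-- The equation `X = B + φ(L^X(0))` has a unique strong solution iff `φ` is `1`-Lipschitz on
`[0,∞)`. Moreover a solution (on some probability space, with respect to some filtration) exists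
only if `φ` is `1`-Lipschitz on `[0,∞)`. -/
theorem result (φ : ℝ → ℝ) :
    ((StrongExistence φ ∧ PathwiseUniqueness φ) ↔
      ∀ s t, 0 ≤ s → 0 ≤ t → |φ s - φ t| ≤ |s - t|) ∧
    (∀ (Ω : Type) (_ : MeasurableSpace Ω) (P : Measure Ω), IsProbabilityMeasure P →
      ∀ (F : ℝ → MeasurableSpace Ω) (B X : ℝ → Ω → ℝ), IsBM P F B → IsSol P F B φ X →
        ∀ s t, 0 ≤ s → 0 ≤ t → |φ s - φ t| ≤ |s - t|) := by
  have nec : ∀ (Ω : Type) (_ : MeasurableSpace Ω) (P : Measure Ω), IsProbabilityMeasure P →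
      ∀ (F : ℝ → MeasurableSpace Ω) (B X : ℝ → Ω → ℝ), IsBM P F B → IsSol P F B φ X →
        ∀ s t, 0 ≤ s → 0 ≤ t → |φ s - φ t| ≤ |s - t| := by
    intro Ω _ P hP F B X hB hX
    exact (necessity φ hB X hX).1
  refine ⟨⟨?_, ?_⟩, nec⟩
  · rintro ⟨hE, -⟩
    obtain ⟨Ω, mΩ, P, B, hP, hc, hB⟩ := exists_bm0
    obtain ⟨X, hX⟩ := hE Ω mΩ P hP hc B hB
    exact nec Ω mΩ P hP _ B X (aug_bm hc hB) hX
  · intro hφ
    refine ⟨?_, ?_⟩
    · intro Ω _ P hP hc B hB
      exact strong_exists hc hB hφ
    · intro Ω _ P hP F G B X Y hB hB' hX hY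
      exact uniq_two hB hB' hX hY

end Pool.Agent.Results.MP_e34d70_pr.FullAnswer
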